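import Pool.Agent.V5helper44.FZ.Stm

/-!
# PROJECT FZ, job STA: starshaped functions avoid thin sets of integers

Written by helper18.
-/

set_option autoImplicit false

open Finset MeasureTheory Filter Topology

namespace Pool.Agent.V5helper18.FZ.STA

open Pool.Agent.V5helper44.FZ

lemma log2_nonneg (m : ℕ) : 0 ≤ Real.log (2 * m) := by
  rcases Nat.eq_zero_or_pos m with h | h
  · subst h; simp
  · apply Real.log_nonneg
    have : (1 : ℝ) ≤ m := by exact_mod_cast h
    linarith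

open Classical in
/-- sums over thin sets -/
lemma sumE (E : Set ℕ) (hE : ∀ A : ℕ, ∃ x₀ : ℝ, ∀ x : ℝ, x₀ ≤ x →
    (({m : ℕ | m ∈ E ∧ (m : ℝ) ≤ x}.ncard : ℕ) : ℝ) ≤ x / Real.log x ^ A) (B : ℕ) :
    Summable fun m : ℕ => if m ∈ E then Real.log (2 * m) ^ B / m else 0 := by
  obtain ⟨f, hf⟩ : ∃ f : ℕ → ℝ, f = fun m : ℕ => if m ∈ E then Real.log (2 * m) ^ B / m else 0 :=
    ⟨_, rfl⟩
  rw [← hf]
  have hf0 : ∀ m, 0 ≤ f m := by
    intro m
    rw [hf]
    dsimp only
    split_ifs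
    · have := log2_nonneg m
      positivity
    · exact le_rfl
  have hl2 : 0 < Real.log 2 := Real.log_pos one_lt_two
  obtain ⟨x₀, hx₀⟩ := hE (B + 2)
  obtain ⟨c, hc⟩ : ∃ c : ℕ → ℝ, c = fun j => ∑ m ∈ Ico (2 ^ j) (2 ^ (j + 1)), f m := ⟨_, rfl⟩
  have hc0 : ∀ j, 0 ≤ c j := by
    intro j
    rw [hc]
    exact sum_nonneg fun m _ => hf0 m
  have hcj : ∀ᶠ j : ℕ in atTop,
      ‖c j‖ ≤ (2 ^ (B + 1) / Real.log 2 ^ 2) * (1 / ((j + 1 : ℕ) : ℝ) ^ 2) := by
    have h1 : Tendsto (fun j : ℕ => (2 : ℝ) ^ (j + 1)) atTop atTop :=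
      (tendsto_pow_atTop_atTop_of_one_lt one_lt_two).comp (tendsto_add_atTop_nat 1)
    filter_upwards [h1.eventually_ge_atTop x₀] with j hj
    rw [Real.norm_eq_abs, abs_of_nonneg (hc0 j)]
    have h2 := hx₀ _ hj
    rw [Real.log_pow] at h2
    obtain ⟨X, hX⟩ : ∃ X : ℝ, X = ((j + 1 : ℕ) : ℝ) * Real.log 2 := ⟨_, rfl⟩
    have hX0 : 0 < X := by rw [hX]; positivity
    rw [← hX] at h2
    have h3 : ∀ m ∈ Ico (2 ^ j) (2 ^ (j + 1)),
        f m ≤ if m ∈ E then (2 * X) ^ B / 2 ^ j else 0 := by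
      intro m hm
      rw [Finset.mem_Ico] at hm
      rw [hf]
      dsimp only
      split_ifs with h
      · have hm1 : (2 : ℝ) ^ j ≤ m := by exact_mod_cast hm.1
        have hm2 : (m : ℝ) ≤ 2 ^ (j + 1) := by exact_mod_cast hm.2.le
        have hm0 : (0 : ℝ) < m := lt_of_lt_of_le (by positivity) hm1
        have h4 : Real.log (2 * m) ≤ 2 * X := by
          have h5 : Real.log (2 * m) ≤ Real.log (2 ^ (j + 2)) := by
            apply Real.log_le_log (by positivity)
            calc (2 : ℝ) * m ≤ 2 * 2 ^ (j + 1) := by linarith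
              _ = 2 ^ (j + 2) := by ring
          rw [Real.log_pow] at h5
          refine h5.trans ?_
          rw [hX]
          push_cast
          nlinarith [hl2, (Nat.cast_nonneg j : (0 : ℝ) ≤ j)]
        exact div_le_div₀ (by positivity) (pow_le_pow_left₀ (log2_nonneg m) h4 B) (by positivity) hm1
      · exact le_rfl
    have h6 : c j ≤ (((Ico (2 ^ j) (2 ^ (j + 1))).filter (fun m => m ∈ E)).card : ℝ) *
        ((2 * X) ^ B / 2 ^ j) := by
      rw [hc]
      refine (sum_le_sum h3).trans ?_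
      rw [← sum_filter, sum_const, nsmul_eq_mul]
    have h7 : (((Ico (2 ^ j) (2 ^ (j + 1))).filter (fun m => m ∈ E)).card : ℝ) ≤
        2 ^ (j + 1) / X ^ (B + 2) := by
      refine le_trans ?_ h2
      rw [← Set.ncard_coe_finset]
      have h8 : ((((Ico (2 ^ j) (2 ^ (j + 1))).filter (fun m => m ∈ E) : Finset ℕ) : Set ℕ)).ncard ≤
          {m : ℕ | m ∈ E ∧ (m : ℝ) ≤ (2 : ℝ) ^ (j + 1)}.ncard := by
        apply Set.ncard_le_ncard
        · intro m hm
          rw [Finset.mem_coe, Finset.mem_filter, Finset.mem_Ico] at hm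
          refine ⟨hm.2, ?_⟩
          exact_mod_cast hm.1.2.le
        · refine Set.Finite.subset (Finset.finite_toSet (Finset.range (2 ^ (j + 1) + 1))) ?_
          intro m hm
          rw [Finset.mem_coe, Finset.mem_range]
          have : (m : ℝ) ≤ ((2 ^ (j + 1) : ℕ) : ℝ) := by
            push_cast
            exact hm.2
          have h9 : m ≤ 2 ^ (j + 1) := by exact_mod_cast this
          omega
      exact_mod_cast h8
    refine h6.trans ?_
    have h8 : 0 ≤ (2 * X) ^ B / 2 ^ j := by positivity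
    refine (mul_le_mul_of_nonneg_right h7 h8).trans (le_of_eq ?_)
    have hj1 : ((j + 1 : ℕ) : ℝ) ≠ 0 := by positivity
    have e1 : (2 : ℝ) ^ (B + 1) / Real.log 2 ^ 2 * (1 / ((j + 1 : ℕ) : ℝ) ^ 2) = 2 ^ (B + 1) / X ^ 2 := by
      rw [hX]
      field_simp
    rw [e1, mul_pow]
    field_simp
    ring
  have hcs : Summable c := by
    refine Summable.of_norm_bounded_eventually_nat (Summable.mul_left _ ?_) hcj
    exact (summable_nat_add_iff (f := fun j : ℕ => 1 / ((j : ℕ) : ℝ) ^ 2) 1).2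
      (Real.summable_one_div_nat_pow.2 one_lt_two)
  have key : ∀ J : ℕ, ∑ m ∈ range (2 ^ J), f m = f 0 + ∑ j ∈ range J, c j := by
    intro J
    induction J with
    | zero => simp
    | succ J ih =>
      rw [sum_range_succ, ← add_assoc, ← ih, hc, Finset.range_eq_Ico, Finset.range_eq_Ico]
      exact (Finset.sum_Ico_consecutive f (Nat.zero_le _)
        (Nat.pow_le_pow_right (by norm_num) (Nat.le_succ J))).symm
  refine summable_of_sum_range_le (c := f 0 + ∑' j, c j) hf0 fun n => ?_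
  have h1 : ∑ m ∈ range n, f m ≤ ∑ m ∈ range (2 ^ n), f m := by
    apply sum_le_sum_of_subset_of_nonneg
    · intro m hm
      rw [Finset.mem_range] at hm ⊢
      exact hm.trans Nat.lt_two_pow_self
    · intro m _ _
      exact hf0 m
  refine h1.trans ?_
  rw [key n]
  have h2 := hcs.sum_le_tsum (range n) (fun j _ => hc0 j)
  linarith

open Classical in
lemma main (E : Set ℕ) (hE : ∀ A : ℕ, ∃ x₀ : ℝ, ∀ x : ℝ, x₀ ≤ x →
    (({m : ℕ | m ∈ E ∧ (m : ℝ) ≤ x}.ncard : ℕ) : ℝ) ≤ x / Real.log x ^ A)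
    (a : ℝ) (f : ℕ → ℝ → ℝ) (hS : Starshaped a f) (hF : Fast a f) (W : ℕ) (b₁ b₂ : ℝ)
    (hb : a < b₁) :
    ∀ᵐ t : ℝ, b₁ < t → t < b₂ →
      ∀ᶠ n : ℕ in atTop, ∀ m : ℕ, m ∈ E → ¬ |(m : ℝ) - f n t| ≤ Real.log (f n t) ^ W := by
  obtain ⟨ha, hS⟩ := hS
  obtain ⟨htend, A, hA⟩ := hF b₁ hb
  have hb0 : 0 < b₁ := lt_of_le_of_lt ha hb
  by_cases hb12 : b₁ < b₂
  swap
  · exact ae_of_all _ fun t h1 h2 => absurd (h1.trans h2) hb12
  have hb20 : 0 < b₂ := hb0.trans hb12
  have hY : ∀ᶠ y : ℝ in atTop, Real.log y ^ W ≤ y / 2 := by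
    have h1 := (Real.isLittleO_pow_log_id_atTop (n := W)).bound (show (0 : ℝ) < 1 / 2 by norm_num)
    filter_upwards [h1, eventually_ge_atTop 1] with y hy h2
    rw [Real.norm_eq_abs, Real.norm_eq_abs, id, abs_of_nonneg (by linarith : 0 ≤ y)] at hy
    exact (le_abs_self _).trans (by linarith)
  obtain ⟨Y₀, hY₀⟩ := eventually_atTop.1 hY
  obtain ⟨n₀, hn₀⟩ := eventually_atTop.1 (htend.eventually_ge_atTop (max Y₀ 4))
  have hsum := sumE E hE (W + A)
  obtain ⟨g, hg⟩ : ∃ g : ℕ → ℝ, g = fun m : ℕ =>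
    if m ∈ E then Real.log (2 * m) ^ (W + A) / m else 0 := ⟨_, rfl⟩
  rw [← hg] at hsum
  have hg0 : ∀ m, 0 ≤ g m := by
    intro m
    rw [hg]
    dsimp only
    split_ifs
    · have := log2_nonneg m
      positivity
    · exact le_rfl
  obtain ⟨p, hp⟩ : ∃ p : ℕ → ℝ → Prop, p = fun n t => n₀ ≤ n ∧ b₁ < t ∧ t < b₂ ∧
    ∃ m : ℕ, m ∈ E ∧ |(m : ℝ) - f n t| ≤ Real.log (f n t) ^ W := ⟨_, rfl⟩
  have hbound : ∀ n, volume {t | p n t} ≤
      ENNReal.ofReal ((8 * b₂ * ∑' m, g m) * (1 / Real.log (f n b₁) ^ A)) := by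
    intro n
    by_cases hn : n₀ ≤ n
    swap
    · have : {t | p n t} = ∅ := by
        ext t
        simp only [hp, Set.mem_ofPred_eq, Set.mem_empty_iff_false, iff_false]
        exact fun h => hn h.1
      rw [this, measure_empty]
      exact zero_le
    obtain ⟨F, hFd⟩ : ∃ F : ℝ, F = f n b₁ := ⟨_, rfl⟩
    have hF4 : 4 ≤ F := by rw [hFd]; exact (le_max_right _ _).trans (hn₀ n hn)
    have hFY : Y₀ ≤ F := by rw [hFd]; exact (le_max_left _ _).trans (hn₀ n hn)
    rw [← hFd]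
    have hlF : 0 < Real.log F := Real.log_pos (by linarith)
    have hge : ∀ t, b₁ < t → F ≤ f n t := by
      intro t ht
      have h1 := (hS n b₁ t hb ht.le).2
      rw [← hFd, div_le_div_iff₀ hb0 (hb0.trans ht)] at h1
      have h2 : F * b₁ ≤ F * t := mul_le_mul_of_nonneg_left ht.le (by linarith)
      have h3 : F * b₁ ≤ f n t * b₁ := h2.trans h1
      exact le_of_mul_le_mul_right h3 hb0
    have hT : ∀ (m : ℕ) (t : ℝ), b₁ < t → |(m : ℝ) - f n t| ≤ Real.log (f n t) ^ W →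
        F ≤ 2 * m ∧ (m : ℝ) / 2 ≤ f n t ∧ |(m : ℝ) - f n t| ≤ Real.log (2 * m) ^ W := by
      intro m t ht hm
      have h1 := hge t ht
      have h2 := hY₀ (f n t) (hFY.trans h1)
      have h3 := abs_le.1 (hm.trans h2)
      have h4 : f n t ≤ 2 * m := by linarith [h3.1]
      refine ⟨h1.trans h4, by linarith [h3.2], hm.trans ?_⟩
      exact pow_le_pow_left₀ (Real.log_nonneg (by linarith)) (Real.log_le_log (by linarith) h4) W
    have hvol : ∀ m : ℕ, volume {t | b₁ < t ∧ t < b₂ ∧ |(m : ℝ) - f n t| ≤ Real.log (f n t) ^ W} ≤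
        ENNReal.ofReal (8 * b₂ * (Real.log (2 * m) ^ W / m)) := by
      intro m
      rcases Set.eq_empty_or_nonempty
        {t | b₁ < t ∧ t < b₂ ∧ |(m : ℝ) - f n t| ≤ Real.log (f n t) ^ W} with he | ⟨t₀, ht₀⟩
      · rw [he, measure_empty]
        exact zero_le
      obtain ⟨q1, q2, q3⟩ := hT m t₀ ht₀.1 ht₀.2.2
      have hm0 : (0 : ℝ) < m := by linarith
      obtain ⟨r, hr⟩ : ∃ r : ℝ, r = Real.log (2 * m) ^ W := ⟨_, rfl⟩
      have hr0 : 0 ≤ r := by
        rw [hr]
        exact pow_nonneg (log2_nonneg m) W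
      rw [← hr]
      have hD : ∀ t t' : ℝ, b₁ < t → t ≤ t' → t < b₂ →
          |(m : ℝ) - f n t| ≤ Real.log (f n t) ^ W → |(m : ℝ) - f n t'| ≤ Real.log (f n t') ^ W →
          t' - t ≤ 4 * b₂ * (r / m) := by
        intro t t' h1 h2 h3 h4 h5
        have ht0 : 0 < t := hb0.trans h1
        have h6 := hT m t h1 h4
        have h7 := hT m t' (h1.trans_le h2) h5
        rw [← hr] at h6 h7
        have h8 := abs_le.1 h6.2.2
        have h9 := abs_le.1 h7.2.2
        have h10 := (hS n t t' (hb.trans h1) h2).2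
        rw [div_le_div_iff₀ ht0 (ht0.trans_le h2)] at h10
        -- f t * t' ≤ f t' * t
        have h11 : f n t' - f n t ≤ 2 * r := by linarith [h8.1, h9.1, h8.2, h9.2]
        have h12 : f n t * (t' - t) ≤ 2 * r * t := by
          have : f n t * (t' - t) = f n t * t' - f n t * t := by ring
          rw [this]
          have h13 : (f n t' - f n t) * t ≤ 2 * r * t := mul_le_mul_of_nonneg_right h11 ht0.le
          nlinarith
        have h13 : (m : ℝ) / 2 * (t' - t) ≤ 2 * r * b₂ := by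
          have h14 : (m : ℝ) / 2 * (t' - t) ≤ f n t * (t' - t) :=
            mul_le_mul_of_nonneg_right h6.2.1 (by linarith)
          have h15 : 2 * r * t ≤ 2 * r * b₂ := mul_le_mul_of_nonneg_left h3.le (by linarith)
          linarith
        have h16 : 4 * b₂ * (r / m) = 4 * b₂ * r / m := by ring
        rw [h16, le_div_iff₀ hm0]
        nlinarith
      have hsub : {t | b₁ < t ∧ t < b₂ ∧ |(m : ℝ) - f n t| ≤ Real.log (f n t) ^ W} ⊆
          Set.Icc (t₀ - 4 * b₂ * (r / m)) (t₀ + 4 * b₂ * (r / m)) := by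
        intro t ht
        rcases le_total t t₀ with h | h
        · have h1 := hD t t₀ ht.1 h ht.2.1 ht.2.2 ht₀.2.2
          have h2 : 0 ≤ 4 * b₂ * (r / m) := by positivity
          exact ⟨by linarith, by linarith⟩
        · have h1 := hD t₀ t ht₀.1 h ht₀.2.1 ht₀.2.2 ht.2.2
          have h2 : 0 ≤ 4 * b₂ * (r / m) := by positivity
          exact ⟨by linarith, by linarith⟩
      refine (measure_mono hsub).trans ?_
      rw [Real.volume_Icc]
      apply ENNReal.ofReal_le_ofReal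
      linarith
    have hsub : {t | p n t} ⊆ ⋃ m : ℕ, (if m ∈ E ∧ F ≤ 2 * m then
        {t | b₁ < t ∧ t < b₂ ∧ |(m : ℝ) - f n t| ≤ Real.log (f n t) ^ W} else ∅) := by
      intro t ht
      simp only [hp, Set.mem_ofPred_eq] at ht
      obtain ⟨-, h1, h2, m, hm, h3⟩ := ht
      rw [Set.mem_iUnion]
      refine ⟨m, ?_⟩
      rw [if_pos ⟨hm, (hT m t h1 h3).1⟩]
      exact ⟨h1, h2, h3⟩
    refine (measure_mono hsub).trans ((measure_iUnion_le _).trans ?_)
    have hterm : ∀ m : ℕ, volume (if m ∈ E ∧ F ≤ 2 * m then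
        {t | b₁ < t ∧ t < b₂ ∧ |(m : ℝ) - f n t| ≤ Real.log (f n t) ^ W} else ∅) ≤
        ENNReal.ofReal ((8 * b₂ / Real.log F ^ A) * g m) := by
      intro m
      split_ifs with h
      · refine (hvol m).trans (ENNReal.ofReal_le_ofReal ?_)
        have hm0 : (0 : ℝ) < m := by linarith [h.2]
        have h1 : Real.log F ^ A ≤ Real.log (2 * m) ^ A :=
          pow_le_pow_left₀ hlF.le (Real.log_le_log (by linarith) h.2) A
        have h2 : 0 < Real.log F ^ A := pow_pos hlF A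
        have h3 : 0 ≤ Real.log (2 * m) ^ W := pow_nonneg (log2_nonneg m) W
        simp only [hg, if_pos h.1, pow_add]
        have e : 8 * b₂ / Real.log F ^ A * (Real.log (2 * m) ^ W * Real.log (2 * m) ^ A / m) =
            8 * b₂ * (Real.log (2 * m) ^ W / m) * (Real.log (2 * m) ^ A / Real.log F ^ A) := by
          field_simp
        rw [e]
        have h4 : 1 ≤ Real.log (2 * m) ^ A / Real.log F ^ A := by
          rw [le_div_iff₀ h2, one_mul]
          exact h1
        have h5 : 0 ≤ 8 * b₂ * (Real.log (2 * m) ^ W / m) := by positivity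
        exact le_mul_of_one_le_right h5 h4
      · rw [measure_empty]
        exact zero_le
    refine (ENNReal.tsum_le_tsum hterm).trans ?_
    rw [← ENNReal.ofReal_tsum_of_nonneg]
    · apply ENNReal.ofReal_le_ofReal
      rw [tsum_mul_left]
      apply le_of_eq
      ring
    · intro m
      have h2 : 0 < Real.log F ^ A := pow_pos hlF A
      have := hg0 m
      positivity
    · exact hsum.mul_left _
  have hne : ∑' n, volume {t | p n t} ≠ ⊤ := by
    refine ne_top_of_le_ne_top (Summable.tsum_ofReal_ne_top (hA.mul_left (8 * b₂ * ∑' m, g m))) ?_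
    exact ENNReal.tsum_le_tsum hbound
  have h0 := measure_setOfPred_frequently_eq_zero hne
  have h1 : ∀ᵐ t : ℝ, ¬ ∃ᶠ n in atTop, p n t := by
    rw [ae_iff]
    simp only [not_not]
    exact h0
  filter_upwards [h1] with t ht h2 h3
  rw [not_frequently] at ht
  filter_upwards [ht, eventually_ge_atTop n₀] with n hn hn0 m hm hcon
  apply hn
  rw [hp]
  exact ⟨hn0, h2, h3, m, hm, hcon⟩

theorem t_STA : S_STA := by
  intro E hE a f hS hF
  have h1 : ∀ᵐ t : ℝ, ∀ W k : ℕ, a + 1 / ((k : ℝ) + 1) < t → t < a + ((k : ℝ) + 1) →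
      ∀ᶠ n : ℕ in atTop, ∀ m : ℕ, m ∈ E → ¬ |(m : ℝ) - f n t| ≤ Real.log (f n t) ^ W := by
    rw [ae_all_iff]
    intro W
    rw [ae_all_iff]
    intro k
    refine main E hE a f hS hF W _ _ ?_
    have : (0 : ℝ) < 1 / ((k : ℝ) + 1) := by positivity
    linarith
  filter_upwards [h1] with t ht hat W
  obtain ⟨k1, hk1⟩ := exists_nat_one_div_lt (sub_pos.2 hat)
  obtain ⟨k2, hk2⟩ := exists_nat_gt (t - a)
  refine ht W (max k1 k2) ?_ ?_
  · have h2 : 1 / (((max k1 k2 : ℕ) : ℝ) + 1) ≤ 1 / ((k1 : ℝ) + 1) := by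
      apply one_div_le_one_div_of_le (by positivity)
      have : (k1 : ℝ) ≤ ((max k1 k2 : ℕ) : ℝ) := by exact_mod_cast le_max_left _ _
      linarith
    linarith
  · have : (k2 : ℝ) ≤ ((max k1 k2 : ℕ) : ℝ) := by exact_mod_cast le_max_right _ _
    linarith

end Pool.Agent.V5helper18.FZ.STA
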